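import Pool.Agent.U174.AK.Stm

/-!
# Project AK, package VAL: adjoining one value of the section

`t_VAL : S_SIMP → S_VAL`.  Every sum of terms `a_i x^(k_i)`, `a_i ∈ E`, is `0` (with the corresponding sum in `L`)
or dominated, on both sides, by one term `a x^k`: terms of equal values are merged.
-/

set_option autoImplicit false

namespace Pool.Agent.U588.AK

open Pool.Agent.U174.AK Polynomial IsLocalRing

section
variable {K : Type} [Field K] (O : ValuationSubring K)

theorem rs_zero_of {z : K} (h : O.valuation z ≠ 1) : rs O z = 0 := by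
  unfold rs
  split_ifs with hz
  · rw [residue_eq_zero_iff, ValuationSubring.valuation_lt_one_iff]
    exact lt_of_le_of_ne ((O.valuation_le_one_iff z).2 hz) h
  · rfl

theorem rs_congr {z c : K} (h : O.valuation (z - c) < 1) : rs O z = rs O c := by
  have hd : z - c ∈ O := (O.valuation_le_one_iff _).1 h.le
  unfold rs
  by_cases hz : z ∈ O
  · have hc : c ∈ O := by
      have := O.sub_mem hz hd
      rwa [sub_sub_cancel] at this
    rw [dif_pos hz, dif_pos hc, ← sub_eq_zero, ← map_sub, residue_eq_zero_iff,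
      ValuationSubring.valuation_lt_one_iff]
    exact h
  · have hc : c ∉ O := fun hc => hz (by
      have := O.add_mem _ _ hd hc
      rwa [sub_add_cancel] at this)
    rw [dif_neg hz, dif_neg hc]

theorem rs_quot {z z' c c' : K} (h : O.valuation (z - c) < O.valuation c)
    (h' : O.valuation (z' - c') < O.valuation c') (he : O.valuation c = O.valuation c') :
    rs O (z / z') = rs O (c / c') := by
  apply rs_congr
  have hc' : c' ≠ 0 := by
    rintro rfl
    rw [map_zero] at h'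
    exact not_lt_zero h'
  have hz' : O.valuation z' = O.valuation c' := Valuation.map_eq_of_sub_lt _ h'
  have hvc' : 0 < O.valuation c' := zero_lt_iff.2 ((Valuation.ne_zero_iff _).2 hc')
  have hz0 : z' ≠ 0 := by
    rintro rfl
    rw [map_zero] at hz'
    exact hvc'.ne hz'
  have e : z / z' - c / c' = ((z - c) * c' - c * (z' - c')) / (z' * c') := by
    field_simp
    ring
  rw [e, map_div₀, map_mul, hz']
  have hpos : 0 < O.valuation c' * O.valuation c' := mul_pos hvc' hvc'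
  rw [div_lt_one₀ hpos]
  refine lt_of_le_of_lt (Valuation.map_sub _ _ _) (max_lt ?_ ?_)
  · rw [map_mul]
    exact mul_lt_mul_of_pos_right (he ▸ h) hvc'
  · rw [map_mul, he]
    exact mul_lt_mul_of_pos_left h' hvc'

end

section
variable {F L : Type} [Field F] [Field L] (O : ValuationSubring F) (P : ValuationSubring L)

/-- `z`, `z'` are zero or dominated by a term `a x ^ k`, `g a y ^ k` -/
def Dom (E : Subfield F) (g : E →+* L) (x : F) (y : L) (z : F) (z' : L) : Prop :=
  (z = 0 ∧ z' = 0) ∨ ∃ (a : E) (k : ℕ), a ≠ 0 ∧ O.valuation (z - (a : F) * x ^ k) < O.valuation ((a : F) * x ^ k) ∧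
    P.valuation (z' - g a * y ^ k) < P.valuation (g a * y ^ k)

theorem dom_sum (ν : O.ValueGroup →*₀ P.ValueGroup) (hν : StrictMono ν) (E : Subfield F) (g : E →+* L)
    (hg : ∀ a : E, P.valuation (g a) = ν (O.valuation (a : F))) (x : F) (y : L)
    (hxy : P.valuation y = ν (O.valuation x)) (hx : x ≠ 0)
    (hu : ∀ (a b : E) (k j : ℕ), a ≠ 0 → b ≠ 0 → O.valuation ((a : F) * x ^ k) = O.valuation ((b : F) * x ^ j) →
      ∃ u : E, (u : F) * x ^ j = x ^ k ∧ g u * y ^ j = y ^ k) :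
    ∀ (n : ℕ) (s : Finset ℕ) (a : ℕ → E) (k : ℕ → ℕ), s.card = n →
      Dom O P E g x y (∑ i ∈ s, (a i : F) * x ^ k i) (∑ i ∈ s, g (a i) * y ^ k i) := by
  have hval : ∀ (a : E) (k : ℕ), P.valuation (g a * y ^ k) = ν (O.valuation ((a : F) * x ^ k)) := by
    intro a k
    rw [map_mul, map_pow, hg, hxy, map_mul, map_pow, map_mul, map_pow]
  intro n
  induction n with
  | zero =>
    intro s a k hs
    rw [Finset.card_eq_zero] at hs
    subst hs
    exact Or.inl ⟨by simp, by simp⟩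
  | succ n ih =>
    intro s a k hs
    by_cases h0 : ∃ i ∈ s, a i = 0
    · obtain ⟨i, hi, hai⟩ := h0
      have h1 := ih (s.erase i) a k (by rw [Finset.card_erase_of_mem hi, hs]; rfl)
      rw [← Finset.add_sum_erase s _ hi, ← Finset.add_sum_erase s (fun i => g (a i) * y ^ k i) hi]
      simp only [hai, map_zero, zero_mul, zero_add, ZeroMemClass.coe_zero]
      exact h1
    by_cases h2 : ∃ i ∈ s, ∃ j ∈ s, i ≠ j ∧
        O.valuation ((a i : F) * x ^ k i) = O.valuation ((a j : F) * x ^ k j)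
    · obtain ⟨i, hi, j, hj, hij, he⟩ := h2
      obtain ⟨u, hu1, hu2⟩ := hu (a i) (a j) (k i) (k j) (fun h => h0 ⟨i, hi, h⟩) (fun h => h0 ⟨j, hj, h⟩) he
      have hj' : j ∈ s.erase i := Finset.mem_erase.2 ⟨hij.symm, hj⟩
      have h1 := ih (s.erase i) (Function.update a j (a j + a i * u)) k
        (by rw [Finset.card_erase_of_mem hi, hs]; rfl)
      rw [← Finset.add_sum_erase (s.erase i) _ hj', ← Finset.add_sum_erase (s.erase i) (fun l =>
        g (Function.update a j (a j + a i * u) l) * y ^ k l) hj'] at h1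
      rw [← Finset.add_sum_erase s _ hi, ← Finset.add_sum_erase s (fun i => g (a i) * y ^ k i) hi,
        ← Finset.add_sum_erase (s.erase i) _ hj', ← Finset.add_sum_erase (s.erase i) (fun l =>
        g (a l) * y ^ k l) hj']
      have e1 : ∑ l ∈ (s.erase i).erase j, ((Function.update a j (a j + a i * u) l : E) : F) * x ^ k l =
          ∑ l ∈ (s.erase i).erase j, (a l : F) * x ^ k l := by
        apply Finset.sum_congr rfl
        intro l hl
        rw [Function.update_of_ne (Finset.ne_of_mem_erase hl)]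
      have e2 : ∑ l ∈ (s.erase i).erase j, g (Function.update a j (a j + a i * u) l) * y ^ k l =
          ∑ l ∈ (s.erase i).erase j, g (a l) * y ^ k l := by
        apply Finset.sum_congr rfl
        intro l hl
        rw [Function.update_of_ne (Finset.ne_of_mem_erase hl)]
      rw [e1, e2, Function.update_self] at h1
      have e3 : ((a j + a i * u : E) : F) * x ^ k j = (a i : F) * x ^ k i + (a j : F) * x ^ k j := by
        push_cast
        rw [← hu1]
        ring
      have e4 : g (a j + a i * u) * y ^ k j = g (a i) * y ^ k i + g (a j) * y ^ k j := by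
        rw [map_add, map_mul, ← hu2]
        ring
      rw [e3, e4, add_assoc, add_assoc] at h1
      exact h1
    · have hne : s.Nonempty := Finset.card_pos.1 (by omega)
      obtain ⟨i, hi, hmax⟩ := Finset.exists_max_image s (fun i => O.valuation ((a i : F) * x ^ k i)) hne
      refine Or.inr ⟨a i, k i, fun h => h0 ⟨i, hi, h⟩, ?_, ?_⟩
      · rw [← Finset.add_sum_erase s _ hi, add_sub_cancel_left]
        apply Valuation.map_sum_lt
        · rw [Valuation.ne_zero_iff]
          refine mul_ne_zero ?_ (pow_ne_zero _ hx)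
          intro h
          exact h0 ⟨i, hi, Subtype.ext h⟩
        · intro l hl
          have hl' := Finset.mem_erase.1 hl
          exact lt_of_le_of_ne (hmax l hl'.2) fun h => h2 ⟨l, hl'.2, i, hi, hl'.1, h⟩
      · rw [← Finset.add_sum_erase s (fun i => g (a i) * y ^ k i) hi, add_sub_cancel_left]
        apply Valuation.map_sum_lt
        · rw [hval]
          have : O.valuation ((a i : F) * x ^ k i) ≠ 0 := by
            rw [Valuation.ne_zero_iff]
            refine mul_ne_zero ?_ (pow_ne_zero _ hx)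
            intro h
            exact h0 ⟨i, hi, Subtype.ext h⟩
          intro h
          rw [← map_zero ν] at h
          exact this (hν.injective h)
        · intro l hl
          have hl' := Finset.mem_erase.1 hl
          rw [hval, hval]
          exact hν (lt_of_le_of_ne (hmax l hl'.2) fun h => h2 ⟨l, hl'.2, i, hi, hl'.1, h⟩)

end

theorem t_VAL : S_SIMP → S_VAL := by
  intro hS F L _ _ O P ρ ν hν s t hs ht E g hE hEs hgs δ
  have hg : ∀ a : E, P.valuation (g a) = ν (O.valuation (a : F)) := hE.val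
  set x : F := ((s δ : Fˣ) : F) with hxd
  set y : L := ((t δ : Lˣ) : L) with hyd
  have hx0 : x ≠ 0 := (s δ).ne_zero
  have hy0 : y ≠ 0 := (t δ).ne_zero
  have hvx : O.valuation x = (δ : O.ValueGroup) := hs δ
  have hwy : P.valuation y = ν (δ : O.ValueGroup) := ht δ
  have hxy : P.valuation y = ν (O.valuation x) := by rw [hwy, hvx]
  have hval : ∀ (a : E) (k : ℕ), P.valuation (g a * y ^ k) = ν (O.valuation ((a : F) * x ^ k)) := by
    intro a k
    rw [map_mul, map_pow, hg, hxy, map_mul, map_pow, map_mul, map_pow]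
  -- merging terms
  have hu : ∀ (a b : E) (k j : ℕ), a ≠ 0 → b ≠ 0 →
      O.valuation ((a : F) * x ^ k) = O.valuation ((b : F) * x ^ j) →
      ∃ u : E, (u : F) * x ^ j = x ^ k ∧ g u * y ^ j = y ^ k := by
    intro a b k j ha hb h
    have ha' : (a : F) ≠ 0 := fun h => ha (Subtype.ext h)
    have hva : O.valuation (a : F) ≠ 0 := (Valuation.ne_zero_iff _).2 ha'
    rw [map_mul, map_mul, map_pow, map_pow, hvx] at h
    have hmem : ((s (δ ^ k * (δ ^ j)⁻¹) : Fˣ) : F) ∈ E := by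
      apply hEs
      refine ⟨(b : F) / (a : F), E.div_mem b.2 a.2, ?_⟩
      rw [map_div₀, div_eq_iff hva]
      push_cast
      have hd : (δ : O.ValueGroup) ^ j ≠ 0 := pow_ne_zero _ δ.ne_zero
      field_simp
      rw [← h]
      exact mul_comm _ _
    refine ⟨⟨_, hmem⟩, ?_, ?_⟩
    · show ((s (δ ^ k * (δ ^ j)⁻¹) : Fˣ) : F) * x ^ j = x ^ k
      rw [map_mul, map_inv, map_pow, map_pow]
      push_cast
      rw [← hxd, inv_mul_cancel_right₀ (pow_ne_zero _ hx0)]
    · rw [hgs, map_mul, map_inv, map_pow, map_pow]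
      push_cast
      rw [← hyd, inv_mul_cancel_right₀ (pow_ne_zero _ hy0)]
  have hdom : ∀ Q : E[X], Dom O P E g x y (Q.eval₂ E.subtype x) (Q.eval₂ g y) := by
    intro Q
    have h := dom_sum O P ν hν E g hg x y hxy hx0 hu _ Q.support (fun i => Q.coeff i) (fun i => i) rfl
    rw [eval₂_eq_sum, eval₂_eq_sum, Polynomial.sum_def, Polynomial.sum_def]
    exact h
  have h1 : ∀ Q : E[X], P.valuation (Q.eval₂ g y) = ν (O.valuation (Q.eval₂ E.subtype x)) := by
    intro Q
    rcases hdom Q with ⟨e1, e2⟩ | ⟨a, k, ha, e1, e2⟩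
    · rw [e1, e2, map_zero, map_zero, map_zero]
    · rw [Valuation.map_eq_of_sub_lt _ e1, Valuation.map_eq_of_sub_lt _ e2, hval]
  have h2 : ∀ Q₁ Q₂ : E[X], Q₂.eval₂ E.subtype x ≠ 0 →
      rs P (Q₁.eval₂ g y / Q₂.eval₂ g y) = ρ (rs O (Q₁.eval₂ E.subtype x / Q₂.eval₂ E.subtype x)) := by
    intro Q₁ Q₂ hQ₂
    by_cases hv : O.valuation (Q₁.eval₂ E.subtype x) = O.valuation (Q₂.eval₂ E.subtype x)
    · rcases hdom Q₂ with ⟨e1, -⟩ | ⟨a₂, k₂, ha₂, e1, e2⟩
      · exact absurd e1 hQ₂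
      rcases hdom Q₁ with ⟨d1, -⟩ | ⟨a₁, k₁, ha₁, d1, d2⟩
      · rw [d1, map_zero, eq_comm, Valuation.zero_iff] at hv
        exact absurd hv hQ₂
      have hv' := hv
      rw [Valuation.map_eq_of_sub_lt _ e1, Valuation.map_eq_of_sub_lt _ d1] at hv'
      have hw' : P.valuation (g a₁ * y ^ k₁) = P.valuation (g a₂ * y ^ k₂) := by
        rw [hval, hval, hv']
      rw [rs_quot O d1 e1 hv', rs_quot P d2 e2 hw']
      obtain ⟨u, hu1, hu2⟩ := hu a₁ a₂ k₁ k₂ ha₁ ha₂ hv'
      have e3 : (a₁ : F) * x ^ k₁ / ((a₂ : F) * x ^ k₂) = ((a₁ * u / a₂ : E) : F) := by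
        push_cast
        have ha₂' : (a₂ : F) ≠ 0 := fun h => ha₂ (Subtype.ext h)
        rw [← hu1]
        field_simp
      have e4 : g a₁ * y ^ k₁ / (g a₂ * y ^ k₂) = g (a₁ * u / a₂ : E) := by
        have ha₂' : g a₂ ≠ 0 := by rwa [Ne, map_eq_zero]
        rw [map_div₀, map_mul, ← hu2]
        field_simp
      rw [e3, e4]
      exact hE.res _
    · have hne : O.valuation (Q₂.eval₂ E.subtype x) ≠ 0 := (Valuation.ne_zero_iff _).2 hQ₂
      have hne' : P.valuation (Q₂.eval₂ g y) ≠ 0 := by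
        rw [h1]
        intro h
        rw [← map_zero ν] at h
        exact hne (hν.injective h)
      rw [rs_zero_of O, rs_zero_of P, map_zero]
      · rw [map_div₀, Ne, div_eq_one_iff_eq hne', h1, h1]
        exact fun h => hv (hν.injective h)
      · rw [map_div₀, Ne, div_eq_one_iff_eq hne]
        exact hv
  obtain ⟨E', g', ⟨hEE, hext⟩, hPart, ⟨hxE, hgx⟩, hrep⟩ := hS F L O P ρ ν hν E g hE x y h1 h2
  -- the values of E'
  have hdec : ∀ γ : O.ValueGroupˣ, (∃ z ∈ E', O.valuation z = γ) → ∃ (α β : O.ValueGroupˣ) (k j : ℕ),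
      ((s α : Fˣ) : F) ∈ E ∧ ((s β : Fˣ) : F) ∈ E ∧ γ = α * β⁻¹ * (δ ^ k * (δ ^ j)⁻¹) := by
    rintro γ ⟨z, hz, hzγ⟩
    obtain ⟨Q₁, Q₂, hQ₂, rfl⟩ := hrep z hz
    rcases hdom Q₂ with ⟨e1, -⟩ | ⟨a₂, k₂, ha₂, e1, e2⟩
    · exact absurd e1 hQ₂
    rcases hdom Q₁ with ⟨d1, -⟩ | ⟨a₁, k₁, ha₁, d1, d2⟩
    · rw [d1, zero_div, map_zero] at hzγ
      exact absurd hzγ.symm γ.ne_zero
    have hva₁ : O.valuation (a₁ : F) ≠ 0 := (Valuation.ne_zero_iff _).2 fun h => ha₁ (Subtype.ext h)
    have hva₂ : O.valuation (a₂ : F) ≠ 0 := (Valuation.ne_zero_iff _).2 fun h => ha₂ (Subtype.ext h)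
    refine ⟨Units.mk0 _ hva₁, Units.mk0 _ hva₂, k₁, k₂, hEs _ ⟨a₁, a₁.2, rfl⟩, hEs _ ⟨a₂, a₂.2, rfl⟩, ?_⟩
    apply Units.ext
    push_cast
    rw [Units.val_mk0, Units.val_mk0]
    rw [map_div₀, Valuation.map_eq_of_sub_lt _ e1, Valuation.map_eq_of_sub_lt _ d1, map_mul, map_mul,
      map_pow, map_pow, hvx] at hzγ
    rw [← hzγ]
    have hd : (δ : O.ValueGroup) ^ k₂ ≠ 0 := pow_ne_zero _ δ.ne_zero
    field_simp
  have hsdec : ∀ (α β : O.ValueGroupˣ) (k j : ℕ),
      ((s (α * β⁻¹ * (δ ^ k * (δ ^ j)⁻¹)) : Fˣ) : F) =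
        ((s α : Fˣ) : F) * ((s β : Fˣ) : F)⁻¹ * (x ^ k * (x ^ j)⁻¹) := by
    intro α β k j
    rw [map_mul, map_mul, map_mul, map_inv, map_inv, map_pow, map_pow]
    push_cast
    rfl
  have htdec : ∀ (α β : O.ValueGroupˣ) (k j : ℕ),
      ((t (α * β⁻¹ * (δ ^ k * (δ ^ j)⁻¹)) : Lˣ) : L) =
        ((t α : Lˣ) : L) * ((t β : Lˣ) : L)⁻¹ * (y ^ k * (y ^ j)⁻¹) := by
    intro α β k j
    rw [map_mul, map_mul, map_mul, map_inv, map_inv, map_pow, map_pow]
    push_cast
    rfl
  refine ⟨E', g', ⟨hEE, hext⟩, hPart, hxE, ?_, ?_⟩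
  · intro γ hγ
    obtain ⟨α, β, k, j, hα, hβ, rfl⟩ := hdec γ hγ
    rw [hsdec]
    exact E'.mul_mem (E'.mul_mem (hEE hα) (E'.inv_mem (hEE hβ)))
      (E'.mul_mem (E'.pow_mem hxE _) (E'.inv_mem (E'.pow_mem hxE _)))
  · intro γ h
    obtain ⟨α, β, k, j, hα, hβ, rfl⟩ := hdec γ ⟨_, h, hs γ⟩
    have e : (⟨((s (α * β⁻¹ * (δ ^ k * (δ ^ j)⁻¹)) : Fˣ) : F), h⟩ : E') =
        ⟨((s α : Fˣ) : F), hEE hα⟩ * (⟨((s β : Fˣ) : F), hEE hβ⟩)⁻¹ * (⟨x, hxE⟩ ^ k * (⟨x, hxE⟩ ^ j)⁻¹) := by
      apply Subtype.ext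
      push_cast
      exact hsdec α β k j
    rw [e, map_mul, map_mul, map_mul, map_inv₀, map_inv₀, map_pow, map_pow, hgx,
      hext ⟨_, hα⟩, hext ⟨_, hβ⟩, hgs, hgs, htdec]

end Pool.Agent.U588.AK
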